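import Pool.Agent.W988.WD.Defs
import Pool.Agent.H445R2.Kad4.Range

/-! Task SPEC: a positive element dominates a positive multiple of a projection. -/

set_option autoImplicit false
open scoped InnerProductSpace Topology

noncomputable section

namespace Pool.Agent.W933.WD

open Pool.Agent.W988.WD

/-- Positive and negative parts. -/
theorem parts {A : Type} [CStarAlgebra A] (x : A) (hx : star x = x) :
    ∃ y z : A, x = star y * y - star z * z ∧ (star y * y) * (star z * z) = 0 ∧
      (star z * z) * (star y * y) = 0 ∧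
      ∀ w : A, x * w = w * x → (star y * y) * w = w * (star y * y) := by
  have hsa : IsSelfAdjoint x := hx
  set y : A := cfc (fun r : ℝ => Real.sqrt (max r 0)) x with hy
  set z : A := cfc (fun r : ℝ => Real.sqrt (max (-r) 0)) x with hz
  have hys : star y = y :=
    (cfc_predicate (R := ℝ) (fun r : ℝ => Real.sqrt (max r 0)) x : IsSelfAdjoint _)
  have hzs : star z = z :=
    (cfc_predicate (R := ℝ) (fun r : ℝ => Real.sqrt (max (-r) 0)) x : IsSelfAdjoint _)
  have hc : star y * y = cfc (fun r : ℝ => max r 0) x := by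
    rw [hys, hy, ← cfc_mul _ _ x (by fun_prop) (by fun_prop)]
    congr 1
    ext r
    exact Real.mul_self_sqrt (le_max_right _ _)
  have hd : star z * z = cfc (fun r : ℝ => max (-r) 0) x := by
    rw [hzs, hz, ← cfc_mul _ _ x (by fun_prop) (by fun_prop)]
    congr 1
    ext r
    exact Real.mul_self_sqrt (le_max_right _ _)
  have hcs : star (star y * y) = star y * y := by rw [star_mul, star_star]
  have hds : star (star z * z) = star z * z := by rw [star_mul, star_star]
  have h0 : (star y * y) * (star z * z) = 0 := by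
    rw [hc, hd, ← cfc_mul _ _ x (by fun_prop) (by fun_prop)]
    have : (fun r : ℝ => max r 0 * max (-r) 0) = fun _ => (0 : ℝ) := by
      ext r
      rcases le_total r 0 with h | h
      · rw [max_eq_right h, zero_mul]
      · rw [max_eq_right (by linarith : -r ≤ 0), mul_zero]
    rw [this]
    exact cfc_const_zero ℝ x
  refine ⟨y, z, ?_, h0, ?_, ?_⟩
  · rw [hc, hd, ← cfc_sub _ _ x (by fun_prop) (by fun_prop)]
    conv_lhs => rw [← cfc_id' ℝ x]
    congr 1
    ext r
    rcases le_total r 0 with h | h
    · rw [max_eq_right h, max_eq_left (by linarith : 0 ≤ -r)]; ring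
    · rw [max_eq_left h, max_eq_right (by linarith : -r ≤ 0)]; ring
  · have := congrArg star h0
    rw [star_mul, hcs, hds, star_zero] at this
    exact this
  · intro w hw
    rw [hc]
    exact (hsa.commute_cfc (show Commute x w from hw) _).eq

theorem p_SPEC : S_SPEC := by
  intro H _ _ _ N b hb hpos hne
  have hk : 0 < ‖b‖ := norm_pos_iff.2 hne
  have hbs : star b = b := hpos.isSelfAdjoint
  set k : ℝ := ‖b‖ / 2 with hkk
  have hk0 : 0 < k := by positivity
  obtain ⟨y, z, hx, h1, h2, h3⟩ := parts (b - (k : ℂ) • (1 : H →L[ℂ] H)) (by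
    rw [star_sub, star_smul, hbs, star_one]
    simp)
  set c : H →L[ℂ] H := star y * y with hc
  set d : H →L[ℂ] H := star z * z with hd
  have hc0 : 0 ≤ c := star_mul_self_nonneg y
  have hd0 : 0 ≤ d := star_mul_self_nonneg z
  have hcs : star c = c := by rw [hc, star_mul, star_star]
  have hds : star d = d := by rw [hd, star_mul, star_star]
  clear_value c d
  have hcN : c ∈ N := by
    rw [← VonNeumannAlgebra.commutant_commutant N, VonNeumannAlgebra.mem_commutant_iff]
    intro g hg
    have hgb : b * g = g * b := VonNeumannAlgebra.mem_commutant_iff.1 hg b hb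
    exact (h3 g (by rw [sub_mul, mul_sub, hgb, smul_mul_assoc, mul_smul_comm, one_mul,
      mul_one])).symm
  obtain ⟨p, hpN, ⟨hp1, hp2⟩, hpc, hpx⟩ := H759R2.Kad.prove5_range H N c hcN
  have hp1' : star p = p := hp1
  have hp2' : p * p = p := hp2
  have hdp : d * p = 0 := hpx d h2
  have hcp : c * p = c := by
    have := congrArg star hpc
    rwa [star_mul, hcs, hp1'] at this
  have hpd : p * d = 0 := by
    have := congrArg star hdp
    rwa [star_mul, hds, hp1', star_zero] at this
  have hxp : (b - (k : ℂ) • (1 : H →L[ℂ] H)) * p = c := by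
    rw [hx, sub_mul, hcp, hdp, sub_zero]
  have hpx' : p * (b - (k : ℂ) • (1 : H →L[ℂ] H)) = c := by
    rw [hx, mul_sub, hpc, hpd, sub_zero]
  have hbp : b * p = c + (k : ℂ) • p := by
    rw [sub_mul, smul_mul_assoc, one_mul] at hxp
    rw [← hxp]; abel
  have hpb : p * b = c + (k : ℂ) • p := by
    rw [mul_sub, mul_smul_comm, mul_one] at hpx'
    rw [← hpx']; abel
  refine ⟨p, hpN, ⟨hp1', hp2'⟩, ?_, k, hk0, fun ξ => ?_⟩
  · rintro rfl
    have hc00 : c = 0 := by rw [← hpc, zero_mul]
    have hle : b ≤ (k : ℂ) • (1 : H →L[ℂ] H) := by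
      rw [← sub_nonneg]
      have : (k : ℂ) • (1 : H →L[ℂ] H) - b = d := by
        rw [← neg_sub, hx, hc00]; simp
      rw [this]
      exact hd0
    have hb0 : 0 ≤ b := (ContinuousLinearMap.nonneg_iff_isPositive b).2 hpos
    have hnorm := CStarAlgebra.norm_le_norm_of_nonneg_of_le hb0 hle
    have h4 : ‖(k : ℂ) • (1 : H →L[ℂ] H)‖ ≤ k := by
      rw [norm_smul, Complex.norm_real, Real.norm_eq_abs, abs_of_pos hk0]
      exact mul_le_of_le_one_right hk0.le ContinuousLinearMap.norm_id_le
    linarith
  · have hb0 : 0 ≤ b := (ContinuousLinearMap.nonneg_iff_isPositive b).2 hpos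
    have e1 : b - (k : ℂ) • p = c + star (1 - p) * b * (1 - p) := by
      rw [star_sub, star_one, hp1', sub_mul, one_mul, hpb, mul_sub, mul_one, sub_mul, hbp,
        add_mul, hcp, smul_mul_assoc, hp2']
      abel
    have h5 : 0 ≤ b - (k : ℂ) • p := by
      rw [e1]
      exact add_nonneg hc0 (star_left_conjugate_nonneg hb0 _)
    have h6 := ((ContinuousLinearMap.nonneg_iff_isPositive _).1 h5).re_inner_nonneg_right ξ
    simp only [ContinuousLinearMap.sub_apply, ContinuousLinearMap.smul_apply, inner_sub_right,
      inner_smul_right] at h6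
    simpa using h6

end Pool.Agent.W933.WD
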